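import Mathlib
import Pool.Agent.Lib.MP_ae055e_co.Asym

set_option autoImplicit false

/-- For every exponent `θ < 3/4`, every constant `c` and every dimension `d ≥ 3`, for all large `n`
the grid `{1,…,n}^d` has a subset with pairwise different Euclidean distances and at least
`c d^(2/3) n^θ (log n)^(1/3)` points. The case `θ = 2/3` is the negated form of Q1. -/
theorem Pool.Agent.Results.MP_ae055e_co.Disproof.result (θ c : ℝ) (hθ : θ < 3 / 4)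
    (d : ℕ) (hd : 3 ≤ d) :
    ∃ n₀ : ℕ, ∀ n : ℕ, n₀ ≤ n → ∃ S : Finset (EuclideanSpace ℝ (Fin d)),
      (∀ x ∈ S, ∀ i, ∃ m : ℕ, 1 ≤ m ∧ m ≤ n ∧ x i = m) ∧
      (∀ x ∈ S, ∀ y ∈ S, ∀ z ∈ S, ∀ w ∈ S, x ≠ y → z ≠ w → dist x y = dist z w →
        (x = z ∧ y = w) ∨ (x = w ∧ y = z)) ∧
      c * (d : ℝ) ^ (2 / 3 : ℝ) * (n : ℝ) ^ θ * (Real.log n) ^ (1 / 3 : ℝ) ≤ S.card :=
  Pool.Agent.Lib.MP_ae055e_co.main θ c hθ d hd
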